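import Mathlib
import Pool.Agent.U916.KF.Spec

set_option autoImplicit false

/-!
# Numbers `(a ^ p - b ^ p) / (a - b)` with exactly `k` prime factors

For real `α > 1`, `β > 0`, real `B`, `c` with `|c| < α` and a prime `p` let `W α β B c p` be the
`p`-rough part (the product, with multiplicity, of the prime factors larger than `p`) of
`⌊β α ^ p - B c ^ p⌋`, and let `N k α β B c n` be the number of primes `p ≤ n` for which
`W α β B c p` has exactly `k` prime factors, counted with multiplicity.  For coprime integers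
`a`, `b` with `-a < b < a` and `p` prime to `a - b` the number `W a (1 / (a - b)) (1 / (a - b)) b p`
is `(a ^ p - b ^ p) / (a - b)` itself; `k = 1` is the counting function of the question.

We prove that for all real `B`, `c` and for Lebesgue almost every pair `(α, β)` with
`α > max 1 |c|`, `β > 0`, for all `k ≥ 1` at once,
`N k α β B c n ~ e ^ γ (log n) ^ k / (k! log α)`.
-/

namespace Pool.Agent.Results.MP_de9007_nt.KPrimeFactors

open Filter Topology MeasureTheory
open ArithmeticFunction (cardFactors)

/-- The product, with multiplicity, of the prime factors of `m` that are larger than `p`. -/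
def roughPart (p m : ℕ) : ℕ := (m.primeFactorsList.filter (fun r => p < r)).prod

/-- The `p`-rough part of `⌊β α ^ p - B c ^ p⌋`. -/
noncomputable def W (α β B c : ℝ) (p : ℕ) : ℕ := roughPart p ⌊β * α ^ p - B * c ^ p⌋₊

/-- The number of primes `p ≤ n` for which `W α β B c p` has exactly `k` prime factors, counted
with multiplicity. -/
noncomputable def N (k : ℕ) (α β B c : ℝ) (n : ℕ) : ℕ :=
  ((Finset.range (n + 1)).filter (fun p => p.Prime ∧ cardFactors (W α β B c p) = k)).card

/-- The integer points. -/
lemma special {a b : ℤ} (hab : IsCoprime a b) (h1 : -a < b) (h2 : b < a) {p : ℕ} (hp : p.Prime)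
    (hpd : ¬ (p : ℤ) ∣ a - b) :
    (W a (1 / (a - b)) (1 / (a - b)) b p : ℤ) * (a - b) = a ^ p - b ^ p := by
  have hne : (a : ℝ) - b ≠ 0 := by
    have : (b : ℝ) < a := by exact_mod_cast h2
    have h3 : 0 < (a : ℝ) - b := by linarith
    exact h3.ne'
  have h := Pool.Agent.H447R2.ML.rough_quot hab h1 h2 hp hpd
    (x := 1 / ((a : ℝ) - b) * (a : ℝ) ^ p - 1 / ((a : ℝ) - b) * (b : ℝ) ^ p) (by field_simp)
  have hgeom : (∑ i ∈ Finset.range p, a ^ i * b ^ (p - 1 - i)) * (a - b) = a ^ p - b ^ p :=
    (Commute.all a b).geom_sum₂_mul p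
  rw [← h] at hgeom
  exact hgeom

theorem result :
    -- at the coprime integer points the values are the numbers of the question
    (∀ a b : ℤ, IsCoprime a b → -a < b → b < a → ∀ p : ℕ, p.Prime → ¬ (p : ℤ) ∣ a - b →
      (W a (1 / (a - b)) (1 / (a - b)) b p : ℤ) * (a - b) = a ^ p - b ^ p) ∧
    -- the law at almost every pair, for all `k` at once
    (∀ B c : ℝ, ∀ᵐ z : ℝ × ℝ, max 1 |c| < z.1 → 0 < z.2 → ∀ k : ℕ, 1 ≤ k →
      Tendsto (fun n : ℕ => (N k z.1 z.2 B c n : ℝ) / Real.log n ^ k) atTop
        (𝓝 (Real.exp Real.eulerMascheroniConstant / (k.factorial * Real.log z.1)))) := by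
  refine ⟨fun a b hab h1 h2 p hp hpd => special hab h1 h2 hp hpd, fun B c => ?_⟩
  have h := Pool.Agent.U916.KF.law' (g := fun p => -(B * c ^ p)) (κ := max 1 |c|) (C := |B|)
    (le_max_left _ _)
    (by
      intro p
      rw [abs_neg, abs_mul, abs_pow]
      refine mul_le_mul_of_nonneg_left ?_ (abs_nonneg _)
      exact pow_le_pow_left₀ (abs_nonneg _) (le_max_right _ _) p)
  filter_upwards [h] with z hz h1 h2 k hk
  refine (hz h1 h2 k hk).congr fun n => ?_
  unfold N W
  simp only [← sub_eq_add_neg]
  rfl

end Pool.Agent.Results.MP_de9007_nt.KPrimeFactors
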