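import Mathlib
import Pool.Agent.N176.SH.Spe
import Pool.Agent.N372.SH.OKP
import Pool.Agent.U776.PL.Tup

set_option autoImplicit false

/-!
# The numbers `(a ^ p - b ^ p) / (a - b)`: the good exponents of almost every amplitude

For integers `a`, `b` with `2 ≤ |b| < a`, a real `β > 0` and a prime `p` let `W a b β p` be the
`p`-rough part (the product, with multiplicity, of the prime factors larger than `p`) of
`⌈β a ^ p⌉ - ⌈b ^ p / (a - b)⌉`.  For coprime `a`, `b` and `β = 1 / (a - b)` this is the number
`M_p(a, b) = (a ^ p - b ^ p) / (a - b)` of the question, for every prime `p` that does not divide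
`a - b`.  Call a prime `p` good for `β` and the pair `(a, b)` if `W a b β p` is prime.

The heuristic behind the conjecture is a Poisson model: for a general `β` the numbers of good exponents
in disjoint sets of primes should behave like independent Poisson variables, and the expected number
in a finite set `T` of primes should be `κ a * V T`, `V T = ∑_{p ∈ T} log p / p`,
`κ a = e ^ γ / log a`.  We prove that almost every single `β` behaves in this way, for all pairs at
once, along thin sets of primes: sets whose part in every dyadic interval `(x, 2 x]` has small weight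
`V`, and in which primes at bounded distance from one another have small total weight.

Precisely, let `y 0 ≤ y 1 ≤ …`, and let `T n i`, `i` in a finite index set, be disjoint finite sets of
primes in `[y n, y (n + 1))`, thin as `n → ∞`, with `V (T n i) → v i`.  Let `X n` be the vector of the
numbers of good exponents of `β` in the sets `T n i`.  For almost every `β > 0`, for all pairs `(a, b)`
at once, the sequence `X 0, X 1, X 2, …` is generic for the sequence of independent vectors of
independent Poisson variables with the parameters `κ a * v i`: every tuple `(k 0, …, k (r - 1))` of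
vectors occurs among the tuples `(X n, …, X (n + r - 1))` with its Poisson probability as frequency.

The pairs `(a, 1)` and `(a, -1)` are in the files `MP_adea1b_nt/PoissonLaw.lean` and
`MP_ce8d0c_nt/PoissonLaw.lean`.
-/

namespace Pool.Agent.Results.MP_de9007_nt.PoissonLaw

open Filter Topology MeasureTheory

/-- The product, with multiplicity, of the prime factors of `m` that are larger than `p`. -/
def roughPart (p m : ℕ) : ℕ := (m.primeFactorsList.filter (fun r => p < r)).prod

/-- The `p`-rough part of `⌈β a ^ p⌉ - ⌈b ^ p / (a - b)⌉`. -/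
noncomputable def W (a : ℕ) (b : ℤ) (β : ℝ) (p : ℕ) : ℕ :=
  roughPart p (⌈β * (a : ℝ) ^ p⌉ - ⌈(b : ℝ) ^ p / ((a : ℝ) - b)⌉).toNat

/-- The number of the `p` in the finite set `T` for which `W a b β p` is prime. -/
noncomputable def N (a : ℕ) (b : ℤ) (T : Finset ℕ) (β : ℝ) : ℕ :=
  (T.filter (fun p => (W a b β p).Prime)).card

/-- The weight `∑_{p ∈ T} log p / p` of a finite set. -/
noncomputable def V (T : Finset ℕ) : ℝ := ∑ p ∈ T, Real.log p / p

/-- The constant `e ^ γ / log a`. -/
noncomputable def κ (a : ℕ) : ℝ := Real.exp Real.eulerMascheroniConstant / Real.log a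

/-- The weights of the Poisson law with the parameter `lam`. -/
noncomputable def pois (lam : ℝ) (k : ℕ) : ℝ := Real.exp (-lam) * lam ^ k / k.factorial

open Classical in
/-- `T 0, T 1, …` are families (indexed by `ι`) of pairwise disjoint finite sets of primes; the weight
of the part in a dyadic interval tends to zero, uniformly in the interval; the weight of the members
which are followed by another member of the family at a distance less than `g` tends to zero, for
every `g`. -/
structure Thin {ι : Type} (T : ℕ → ι → Finset ℕ) : Prop where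
  prime : ∀ n i, ∀ p ∈ T n i, p.Prime
  disjoint : ∀ n i j, i ≠ j → Disjoint (T n i) (T n j)
  dyadic : ∀ δ : ℝ, 0 < δ → ∀ᶠ n in atTop, ∀ i, ∀ x : ℕ,
    V ((T n i).filter (fun p => x < p ∧ p ≤ 2 * x)) ≤ δ
  close : ∀ g : ℕ, ∀ δ : ℝ, 0 < δ → ∀ᶠ n in atTop, ∀ i,
    V ((T n i).filter (fun p => ∃ j, ∃ q ∈ T n j, p < q ∧ q < p + g)) ≤ δ

lemma N_eq {a : ℕ} {b : ℤ} (h1 : 2 ≤ |b|) (h2 : |b| < a) (T : Finset ℕ)
    (hT : ∀ p ∈ T, p.Prime ∧ 3 ≤ p) {β : ℝ} (hβ : 0 < β) :
    Pool.Agent.U776.PL.NS (Pool.Agent.N176.SH.cc a b) a T β = N a b T β := by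
  unfold Pool.Agent.U776.PL.NS N
  congr 1
  refine Finset.filter_congr fun p hp => ?_
  obtain ⟨hp1, hp3⟩ := hT p hp
  have ha : 2 ≤ a := by
    have : (2 : ℤ) < a := lt_of_le_of_lt h1 h2
    omega
  rw [Pool.Agent.N176.SH.WW_eq ha (by omega) hβ (Or.inl (hp1.odd_of_ne_two (by omega)))]
  exact Iff.rfl

open Classical in
/-- The special values; the Poisson law for almost every single amplitude, for all pairs at once. -/
theorem result :
    (∀ (a : ℕ) (b : ℤ), 2 ≤ |b| → |b| < a → IsCoprime (a : ℤ) b → ∀ p : ℕ, p.Prime →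
      ¬ (p : ℤ) ∣ a - b → (W a b (1 / ((a : ℝ) - b)) p : ℤ) * (a - b) = (a : ℤ) ^ p - b ^ p) ∧
    (∀ (ι : Type) [Fintype ι] (T : ℕ → ι → Finset ℕ) (v : ι → ℝ), Thin T →
      ∀ y : ℕ → ℕ, Monotone y → (∀ n i, ∀ p ∈ T n i, y n ≤ p ∧ p < y (n + 1)) →
      (∀ i, Tendsto (fun n => V (T n i)) atTop (𝓝 (v i))) → 0 < ∑ i, v i →
      ∀ᵐ β : ℝ, 0 < β → ∀ (a : ℕ) (b : ℤ), 2 ≤ |b| → |b| < a → ∀ (r : ℕ) (k : Fin r → ι → ℕ),
      Tendsto (fun m : ℕ => (((Finset.range m).filter
        (fun n => ∀ (l : Fin r) (i : ι), N a b (T (n + l) i) β = k l i)).card : ℝ) / (m : ℝ)) atTop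
        (𝓝 (∏ l, ∏ i, pois (κ a * v i) (k l i)))) := by
  refine ⟨fun a b _ h2 h3 p hp hpd => Pool.Agent.N176.SH.spe h2 h3 hp hpd, ?_⟩
  intro ι _ T v hT y hmono hy hv hpos
  obtain ⟨J0, hJ0⟩ := eventually_atTop.1
    (Pool.Agent.U776.PL.large_of_windows hy hT.disjoint hv hpos 3)
  have h1 : ∀ (a : ℕ) (b : ℤ), ∀ᵐ β : ℝ, 2 ≤ |b| → |b| < a → 0 < β → ∀ (r : ℕ)
      (k : Fin r → ι → ℕ), Tendsto (fun m : ℕ => (((Finset.range m).filter
        (fun n => ∀ (l : Fin r) (i : ι), N a b (T (n + l) i) β = k l i)).card : ℝ) / (m : ℝ)) atTop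
        (𝓝 (∏ l, ∏ i, pois (κ a * v i) (k l i))) := by
    intro a b
    by_cases hab : 2 ≤ |b| ∧ |b| < a
    · obtain ⟨hb1, hb2⟩ := hab
      obtain ⟨A, H⟩ := Pool.Agent.N372.SH.okp a b (by omega) hb2
      have hsh := tendsto_add_atTop_nat J0
      have h := Pool.Agent.U776.PL.quenched_tuples H (fun n => T (n + J0)) (fun n => y (n + J0))
        (fun i j hij => hmono (by omega))
        (fun n i p hp => by
          have h3 := hy (n + J0) i p hp
          rw [show n + J0 + 1 = n + 1 + J0 by omega] at h3
          exact h3) (fun n => hT.disjoint (n + J0))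
        (fun g δ hδ => by
          filter_upwards [hsh.eventually (hT.close g δ hδ)] with n hn i
          refine le_trans (le_of_eq ?_) (hn i)
          exact Finset.sum_congr (Finset.ext fun p => by simp only [Finset.mem_filter])
            fun _ _ => rfl) (fun δ hδ => hsh.eventually (hT.dyadic δ hδ))
        (fun i => (hv i).comp hsh) hpos
      filter_upwards [h] with β hβ _ _ h0 r k
      have h2 := hβ h0 r k
      have e : ∀ (n : ℕ) (l : Fin r) (i : ι),
          Pool.Agent.U776.PL.NS (Pool.Agent.N176.SH.cc a b) a (T (n + l + J0) i) β =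
          N a b (T (n + J0 + l) i) β := fun n l i => by
        rw [show n + (l : ℕ) + J0 = n + J0 + l by omega]
        exact N_eq hb1 hb2 _ (fun p hp => ⟨hT.prime _ i p hp, hJ0 _ (by omega) i p hp⟩) h0
      simp only [e, Finset.card_filter] at h2
      push_cast at h2
      have h3 := Pool.Agent.U776.PL.avg_shift
        (a := fun n => if ∀ (l : Fin r) (i : ι), N a b (T (n + l) i) β = k l i
          then (1 : ℝ) else 0) J0 h2
      refine h3.congr fun m => ?_
      rw [Finset.card_filter]
      push_cast
      rfl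
    · exact Eventually.of_forall fun β h h' => absurd ⟨h, h'⟩ hab
  filter_upwards [ae_all_iff.2 fun a => ae_all_iff.2 (h1 a)] with β hβ h0 a b hb1 hb2
  exact hβ a b hb1 hb2 h0

end Pool.Agent.Results.MP_de9007_nt.PoissonLaw
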