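import Mathlib
import Pool.Agent.N176.SH.Spe
import Pool.Agent.N372.SH.OKP
import Pool.Agent.U776.PL.Fin

set_option autoImplicit false

/-!
# The numbers `(a ^ p - b ^ p) / (a - b)` with a random amplitude: Poisson convergence in thin sets

For integers `a`, `b` with `1 ≤ |b| < a`, a real `β > 0` and a prime `p` let `W a b β p` be the
`p`-rough part (the product, with multiplicity, of the prime factors larger than `p`) of
`⌈β a ^ p⌉ - ⌈b ^ p / (a - b)⌉`.  For coprime `a`, `b` and `β = 1 / (a - b)` this is the number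
`M_p(a, b) = (a ^ p - b ^ p) / (a - b)` of the question, for every prime `p` that does not divide
`a - b`.  Call a prime `p` good for `β` and the pair `(a, b)` if `W a b β p` is prime.

The heuristic behind the conjecture is a Poisson model: for a general `β` the numbers of good exponents
in disjoint sets of primes should be independent Poisson variables, and the expected number in a
finite set `T` of primes should be `κ a * V T`, `V T = ∑_{p ∈ T} log p / p`, `κ a = e ^ γ / log a`.  We
prove the corresponding limit theorem for thin sets of primes: sets whose part in every dyadic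
interval `(x, 2 x]` has small weight `V`, and in which primes at bounded distance from one another have
small total weight.  If `T n i` (`i` in a finite index set, `n → ∞`) are thin families of disjoint
finite sets of primes, going to infinity, with `V (T n i) → v i`, and `β` is random with an arbitrary
absolutely continuous law on `(0, ∞)`, then for every pair `(a, b)` the numbers of good exponents in
the sets `T n i` converge in law to independent Poisson variables with the parameters `κ a * v i`.

The file `PoissonLaw.lean` has the law for almost every single amplitude (frequencies along a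
sequence of successive blocks); neither theorem contains the other.
-/

namespace Pool.Agent.Results.MP_de9007_nt.PoissonLimit

open Filter Topology MeasureTheory

/-- The product, with multiplicity, of the prime factors of `m` that are larger than `p`. -/
def roughPart (p m : ℕ) : ℕ := (m.primeFactorsList.filter (fun r => p < r)).prod

/-- The `p`-rough part of `⌈β a ^ p⌉ - ⌈b ^ p / (a - b)⌉`. -/
noncomputable def W (a : ℕ) (b : ℤ) (β : ℝ) (p : ℕ) : ℕ :=
  roughPart p (⌈β * (a : ℝ) ^ p⌉ - ⌈(b : ℝ) ^ p / ((a : ℝ) - b)⌉).toNat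

/-- The number of the `p` in the finite set `T` for which `W a b β p` is prime. -/
noncomputable def N (a : ℕ) (b : ℤ) (T : Finset ℕ) (β : ℝ) : ℕ :=
  (T.filter (fun p => (W a b β p).Prime)).card

/-- The weight `∑_{p ∈ T} log p / p` of a finite set. -/
noncomputable def V (T : Finset ℕ) : ℝ := ∑ p ∈ T, Real.log p / p

/-- The constant `e ^ γ / log a`. -/
noncomputable def κ (a : ℕ) : ℝ := Real.exp Real.eulerMascheroniConstant / Real.log a

/-- The weights of the Poisson law with the parameter `lam`. -/
noncomputable def pois (lam : ℝ) (k : ℕ) : ℝ := Real.exp (-lam) * lam ^ k / k.factorial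

open Classical in
/-- `T 0, T 1, …` are families (indexed by `ι`) of pairwise disjoint finite sets of primes; the weight
of the part in a dyadic interval tends to zero, uniformly in the interval; the weight of the members
which are followed by another member of the family at a distance less than `g` tends to zero, for
every `g`. -/
structure Thin {ι : Type} (T : ℕ → ι → Finset ℕ) : Prop where
  prime : ∀ n i, ∀ p ∈ T n i, p.Prime
  disjoint : ∀ n i j, i ≠ j → Disjoint (T n i) (T n j)
  dyadic : ∀ δ : ℝ, 0 < δ → ∀ᶠ n in atTop, ∀ i, ∀ x : ℕ,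
    V ((T n i).filter (fun p => x < p ∧ p ≤ 2 * x)) ≤ δ
  close : ∀ g : ℕ, ∀ δ : ℝ, 0 < δ → ∀ᶠ n in atTop, ∀ i,
    V ((T n i).filter (fun p => ∃ j, ∃ q ∈ T n j, p < q ∧ q < p + g)) ≤ δ

lemma N_eq {a : ℕ} {b : ℤ} (h1 : 1 ≤ |b|) (h2 : |b| < a) (T : Finset ℕ)
    (hT : ∀ p ∈ T, p.Prime ∧ 3 ≤ p) {β : ℝ} (hβ : 0 < β) :
    Pool.Agent.U776.PL.NS (Pool.Agent.N176.SH.cc a b) a T β = N a b T β := by
  unfold Pool.Agent.U776.PL.NS N
  congr 1
  refine Finset.filter_congr fun p hp => ?_
  obtain ⟨hp1, hp3⟩ := hT p hp
  have ha : 2 ≤ a := by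
    have : (1 : ℤ) < a := lt_of_le_of_lt h1 h2
    omega
  rw [Pool.Agent.N176.SH.WW_eq ha (by omega) hβ (Or.inl (hp1.odd_of_ne_two (by omega)))]
  exact Iff.rfl

/-- The special values; the joint Poisson law over the amplitudes. -/
theorem result :
    (∀ (a : ℕ) (b : ℤ), 1 ≤ |b| → |b| < a → IsCoprime (a : ℤ) b → ∀ p : ℕ, p.Prime →
      ¬ (p : ℤ) ∣ a - b → (W a b (1 / ((a : ℝ) - b)) p : ℤ) * (a - b) = (a : ℤ) ^ p - b ^ p) ∧
    (∀ (a : ℕ) (b : ℤ), 1 ≤ |b| → |b| < a →
      ∀ (ι : Type) [Fintype ι] (T : ℕ → ι → Finset ℕ) (v : ι → ℝ), Thin T →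
      (∀ M : ℕ, ∀ᶠ n in atTop, ∀ i, ∀ p ∈ T n i, M ≤ p) →
      (∀ i, Tendsto (fun n => V (T n i)) atTop (𝓝 (v i))) →
      ∀ μ : Measure ℝ, IsProbabilityMeasure μ → μ ≪ volume → (∀ᵐ β ∂μ, 0 < β) → ∀ k : ι → ℕ,
      Tendsto (fun n => μ.real {β | ∀ i, N a b (T n i) β = k i}) atTop
        (𝓝 (∏ i, pois (κ a * v i) (k i)))) := by
  refine ⟨fun a b _ h2 h3 p hp hpd => Pool.Agent.N176.SH.spe h2 h3 hp hpd, ?_⟩
  intro a b h1 h2 ι _ T v hT hlarge hv μ hμ hac hpos k
  obtain ⟨A, H⟩ := Pool.Agent.N372.SH.okp a b (by omega) h2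
  have hT' : Pool.Agent.U776.PL.Thin T := ⟨hT.disjoint, hlarge, hT.close, hT.dyadic⟩
  have h := Pool.Agent.U776.PL.annealed H hT' (fun i => (hv i).const_mul (κ a)) μ hac hpos k
  refine h.congr' ?_
  filter_upwards [hlarge 3] with n hn
  refine measureReal_congr ?_
  filter_upwards [hpos] with β hβ
  refine propext ?_
  show (∀ i, Pool.Agent.U776.PL.NS (Pool.Agent.N176.SH.cc a b) a (T n i) β = k i) ↔
    ∀ i, N a b (T n i) β = k i
  refine forall_congr' fun i => ?_
  rw [N_eq h1 h2 (T n i) (fun p hp => ⟨hT.prime n i p hp, hn i p hp⟩) hβ]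

end Pool.Agent.Results.MP_de9007_nt.PoissonLimit
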