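import Mathlib
import Pool.Agent.U310.Mers.Pairs

set_option autoImplicit false

/-!
# The generalized Lenstra-Pomerance-Wagstaff conjecture in random models of the primes with a sieve

The question is whether the number `N(y)` of primes `p ≤ y` with `(a ^ p - b ^ p) / (a - b)` prime satisfies
`N(y) / log_a y → e ^ γ + m(a, b) log 2` for every admissible pair `(a, b)`.  We answer it in random models of
the primes: the natural numbers are decided one after the other, no `m` with a prime factor at most `z(m)` is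
chosen, and the conditional probability of choosing `m + 1` (without prime factors at most `z(m + 1)`) given the
past is asymptotic to `∏_{q ≤ z(m + 1)} (1 - 1/q)⁻¹ / log m`.  No independence and no rate is assumed.

The limit is `e ^ γ` for all pairs at once, whenever `z(m) = o(log m log log m)` and `log z(m) ~ log log m`; so the
formula of the question holds exactly for the pairs with `m(a, b) = 0`, and it fails for the pairs with
`m(a, b) ≥ 1`, for example for `(9, -4)`.
-/

open MeasureTheory Filter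
open scoped Topology

namespace Pool.Agent.Results.MP_de9007_nt.RandomSieveModels

/-- `∏_{q ≤ x} (1 - 1/q)⁻¹`, `q` prime -/
noncomputable def W (x : ℕ) : ℝ := ∏ q ∈ (Finset.Icc 1 x).filter Nat.Prime, (1 - (q : ℝ)⁻¹)⁻¹

/-- `m` has no prime factor at most `z m` -/
def Rough (z : ℕ → ℕ) (m : ℕ) : Prop := ∀ q, q.Prime → q ≤ z m → ¬ q ∣ m

/-- A random model of the primes with sieve level `z`.  `S n` is the event that `n` is chosen; it is adapted
to the filtration `ℱ`; no `n` with a prime factor at most `z n` is chosen; almost surely the conditional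
probability of `S (n + 1)` given `ℱ n`, times `log n / W (z (n + 1))`, tends to `1` along the `n` for which
`n + 1` has no prime factor at most `z (n + 1)`. -/
structure Model {Ω : Type} [mΩ : MeasurableSpace Ω] (μ : Measure Ω) (ℱ : Filtration ℕ mΩ)
    (S : ℕ → Set Ω) (z : ℕ → ℕ) : Prop where
  adapted : ∀ n, MeasurableSet[ℱ n] (S n)
  sieved : ∀ n, ¬ Rough z n → S n = ∅
  density : ∀ᵐ ω ∂μ, Tendsto (fun n : ℕ =>
    (μ[(S (n + 1)).indicator (fun _ => (1 : ℝ)) | ℱ n]) ω * Real.log n / W (z (n + 1)))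
    (atTop ⊓ 𝓟 {n : ℕ | Rough z (n + 1)}) (𝓝 1)

/-- `(a ^ p - b ^ p) / (a - b)` -/
def D (a b : ℤ) (p : ℕ) : ℕ := ((a ^ p - b ^ p) / (a - b)).toNat

/-- the number of primes `p ≤ n` in `E` with `(a ^ p - b ^ p) / (a - b) ∈ S` -/
noncomputable def N (a b : ℤ) (S E : Set ℕ) (n : ℕ) : ℕ := {p | p ≤ n ∧ p.Prime ∧ p ∈ E ∧ D a b p ∈ S}.ncard

open Classical in
/-- `∑ log p / p` over the primes `p ≤ n` in `E` -/
noncomputable def L (E : Set ℕ) (n : ℕ) : ℝ :=
  ∑ p ∈ (Finset.Icc 1 n).filter (fun p => p.Prime ∧ p ∈ E), Real.log p / p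

/-- the pair `(a, b)` is admissible, and `m = m(a, b)` -/
def Adm (a b : ℤ) (m : ℕ) : Prop :=
  1 < a ∧ -a < b ∧ b < a ∧ IsCoprime a b ∧
    (∀ r : ℕ, 1 < r → ¬ ((∃ c : ℤ, a = c ^ r) ∧ (∃ d : ℤ, b = d ^ r))) ∧
    (¬ ∃ c : ℤ, -4 * a * b = c ^ 4) ∧
    (∃ c d : ℤ, a = c ^ (2 ^ m) ∧ -b = d ^ (2 ^ m)) ∧
    (¬ ∃ c d : ℤ, a = c ^ (2 ^ (m + 1)) ∧ -b = d ^ (2 ^ (m + 1)))

lemma adm_nine : Adm 9 (-4) 1 := by
  refine ⟨by norm_num, by norm_num, by norm_num, ⟨1, 2, by norm_num⟩, ?_, ?_, ⟨3, 2, by norm_num, by norm_num⟩, ?_⟩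
  · rintro r hr ⟨⟨c, hc⟩, ⟨d, hd⟩⟩
    -- `r` is odd
    rcases Nat.even_or_odd r with h | h
    · have := h.pow_nonneg d
      rw [← hd] at this
      norm_num at this
    · have hr3 : 3 ≤ r := by
        rcases h with ⟨k, hk⟩
        omega
      have h9 : |c| ^ r = 9 := by
        rw [← abs_pow, ← hc]
        norm_num
      rcases le_or_gt |c| 1 with h1 | h1
      · have h2 : |c| ^ r ≤ 1 := pow_le_one₀ (abs_nonneg c) h1
        rw [h9] at h2
        norm_num at h2
      · rcases le_or_gt |c| 2 with h2 | h2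
        · have h3 : |c| = 2 := le_antisymm h2 h1
          rw [h3] at h9
          rcases le_or_gt r 3 with h4 | h4
          · have : r = 3 := le_antisymm h4 hr3
            rw [this] at h9
            norm_num at h9
          · have h5 : (2 : ℤ) ^ 4 ≤ 2 ^ r := pow_le_pow_right₀ (by norm_num) h4
            rw [h9] at h5
            norm_num at h5
        · have h3 : (3 : ℤ) ^ 3 ≤ |c| ^ r := by
            calc (3 : ℤ) ^ 3 ≤ |c| ^ 3 := pow_le_pow_left₀ (by norm_num) h2 3
              _ ≤ |c| ^ r := pow_le_pow_right₀ (by linarith) hr3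
          rw [h9] at h3
          norm_num at h3
  · rintro ⟨c, hc⟩
    have h1 : |c| ^ 4 = 144 := by
      rw [← abs_pow, ← hc]
      norm_num
    rcases le_or_gt |c| 3 with h2 | h2
    · have h3 : |c| ^ 4 ≤ 3 ^ 4 := pow_le_pow_left₀ (abs_nonneg c) h2 4
      rw [h1] at h3
      norm_num at h3
    · have h3 : (4 : ℤ) ^ 4 ≤ |c| ^ 4 := pow_le_pow_left₀ (by norm_num) h2 4
      rw [h1] at h3
      norm_num at h3
  · rintro ⟨c, d, hc, -⟩
    have h1 : |c| ^ 4 = 9 := by
      have h0 : c ^ 4 = 9 := by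
        rw [hc]
        norm_num
      rw [← abs_pow, h0]
      norm_num
    rcases le_or_gt |c| 1 with h2 | h2
    · have h3 : |c| ^ 4 ≤ 1 ^ 4 := pow_le_pow_left₀ (abs_nonneg c) h2 4
      rw [h1] at h3
      norm_num at h3
    · have h3 : (2 : ℤ) ^ 4 ≤ |c| ^ 4 := pow_le_pow_left₀ (by norm_num) h2 4
      rw [h1] at h3
      norm_num at h3

/-- **The generalized Lenstra-Pomerance-Wagstaff conjecture in random models with a sieve.**  Consider a random
model with sieve level `z`, `log z(m) / log log m → θ > 0`.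

(1) For every set `E` of exponents, almost surely the following holds for all pairs of coprime integers
`a > 1`, `-a < b < a`: if the sum `L(n)` of `log p / p` over the primes `p ≤ n` in `E` for which
`(a ^ p - b ^ p) / (a - b)` has no prime factor at most its `z` tends to infinity, then the number `N(n)` of
primes `p ≤ n` in `E` with `(a ^ p - b ^ p) / (a - b)` chosen is asymptotic to `(θ e ^ γ / log a) L(n)`; if this sum
is bounded, then only finitely many of these numbers are chosen.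

(2) Let moreover `z(m) / (log m log log m) → 0`.  If `E` has relative logarithmic density `d` in the primes, then
almost surely `N(n) / log_a n → d θ e ^ γ` for all these pairs.

(3) Let moreover `θ = 1`.  Almost surely, for all admissible pairs `(a, b)` with `m = m(a, b)`, the asymptotic
formula of the question, `N(n) / log_a n → e ^ γ + m log 2`, holds if and only if `m = 0`.  The pair
`(9, -4)` is admissible with `m = 1`. -/
theorem result {Ω : Type} [mΩ : MeasurableSpace Ω] (μ : Measure Ω) [IsProbabilityMeasure μ]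
    (ℱ : Filtration ℕ mΩ) (S : ℕ → Set Ω) (z : ℕ → ℕ) (hM : Model μ ℱ S z) (θ : ℝ) (hθ : 0 < θ)
    (hz : Tendsto (fun m : ℕ => Real.log (z m) / Real.log (Real.log m)) atTop (𝓝 θ)) :
    -- (1)
    (∀ E : Set ℕ, ∀ᵐ ω ∂μ, ∀ a b : ℤ, 1 < a → -a < b → b < a → IsCoprime a b →
      (Tendsto (L (E ∩ {p | Rough z (D a b p)})) atTop atTop →
        Tendsto (fun n => (N a b {k | ω ∈ S k} E n : ℝ) /
          (θ * Real.exp Real.eulerMascheroniConstant / Real.log a * L (E ∩ {p | Rough z (D a b p)}) n))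
          atTop (𝓝 1)) ∧
      ((∃ C : ℝ, ∀ n, L (E ∩ {p | Rough z (D a b p)}) n ≤ C) →
        {p | p.Prime ∧ p ∈ E ∧ ω ∈ S (D a b p)}.Finite)) ∧
    (Tendsto (fun m : ℕ => (z m : ℝ) / (Real.log m * Real.log (Real.log m))) atTop (𝓝 0) →
      -- (2)
      (∀ (E : Set ℕ) (d : ℝ), Tendsto (fun n => L E n / Real.log n) atTop (𝓝 d) →
        ∀ᵐ ω ∂μ, ∀ a b : ℤ, 1 < a → -a < b → b < a → IsCoprime a b →
          Tendsto (fun n : ℕ => (N a b {k | ω ∈ S k} E n : ℝ) / (Real.log n / Real.log a)) atTop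
            (𝓝 (θ * Real.exp Real.eulerMascheroniConstant * d))) ∧
      -- (3)
      (θ = 1 → ∀ᵐ ω ∂μ, ∀ (a b : ℤ) (m : ℕ), Adm a b m →
        (Tendsto (fun n : ℕ => ({p : ℕ | p ≤ n ∧ p.Prime ∧ ω ∈ S (D a b p)}.ncard : ℝ) /
          (Real.log n / Real.log a)) atTop
          (𝓝 (Real.exp Real.eulerMascheroniConstant + m * Real.log 2)) ↔ m = 0))) ∧
    Adm 9 (-4) 1 := by
  have hW' := Pool.Agent.U310.Mers.W_small z θ hθ hz
  have hprof : ∀ᵐ ω ∂μ, ∀ ε : ℝ, 0 < ε → ∀ᶠ n : ℕ in atTop,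
        |Pool.Agent.R528.RM.dens μ ℱ S n ω - Pool.Agent.U310.Mers.rho1 z (n + 1)| ≤
          ε * Pool.Agent.U310.Mers.rho1 z (n + 1) :=
    Pool.Agent.U310.Mers.profile z hW' hM.sieved hM.density
  have key1 : ∀ E : Set ℕ, ∀ᵐ ω ∂μ, ∀ a b : ℤ, 1 < a → -a < b → b < a → IsCoprime a b →
      (Tendsto (L (E ∩ {p | Rough z (D a b p)})) atTop atTop →
        Tendsto (fun n => (N a b {k | ω ∈ S k} E n : ℝ) /
          (θ * Real.exp Real.eulerMascheroniConstant / Real.log a * L (E ∩ {p | Rough z (D a b p)}) n))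
          atTop (𝓝 1)) ∧
      ((∃ C : ℝ, ∀ n, L (E ∩ {p | Rough z (D a b p)}) n ≤ C) →
        {p | p.Prime ∧ p ∈ E ∧ ω ∈ S (D a b p)}.Finite) := by
    intro E
    rw [ae_all_iff]
    intro a
    rw [ae_all_iff]
    intro b
    by_cases h : 1 < a ∧ -a < b ∧ b < a ∧ IsCoprime a b
    · obtain ⟨ha, h1, h2, hcop⟩ := h
      have hX := Pool.Agent.U310.Mers.DP_expo ha h1 h2 hcop
      have g1 : Tendsto (L (E ∩ {p | Rough z (D a b p)})) atTop atTop →
          ∀ᵐ ω ∂μ, Tendsto (fun n => (N a b {k | ω ∈ S k} E n : ℝ) /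
          (θ * Real.exp Real.eulerMascheroniConstant / Real.log a * L (E ∩ {p | Rough z (D a b p)}) n))
          atTop (𝓝 1) :=
        fun h => Pool.Agent.U310.Mers.glaw_inf hM.adapted hX z θ hθ hz hprof E h
      have g2 : (∃ C : ℝ, ∀ n, L (E ∩ {p | Rough z (D a b p)}) n ≤ C) →
          ∀ᵐ ω ∂μ, {p | p.Prime ∧ p ∈ E ∧ ω ∈ S (D a b p)}.Finite := by
        rintro ⟨C, hC⟩
        exact Pool.Agent.U310.Mers.glaw_fin hM.adapted hX z θ hθ hz hprof E C hC
      by_cases h3 : Tendsto (L (E ∩ {p | Rough z (D a b p)})) atTop atTop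
      · by_cases h4 : ∃ C : ℝ, ∀ n, L (E ∩ {p | Rough z (D a b p)}) n ≤ C
        · filter_upwards [g1 h3, g2 h4] with ω w1 w2 _ _ _ _
          exact ⟨fun _ => w1, fun _ => w2⟩
        · filter_upwards [g1 h3] with ω w1 _ _ _ _
          exact ⟨fun _ => w1, fun h => absurd h h4⟩
      · by_cases h4 : ∃ C : ℝ, ∀ n, L (E ∩ {p | Rough z (D a b p)}) n ≤ C
        · filter_upwards [g2 h4] with ω w2 _ _ _ _
          exact ⟨fun h => absurd h h3, fun _ => w2⟩
        · refine Eventually.of_forall fun ω _ _ _ _ => ?_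
          exact ⟨fun h => absurd h h3, fun h => absurd h h4⟩
    · refine Eventually.of_forall fun ω ha h1 h2 hcop => ?_
      exact absurd ⟨ha, h1, h2, hcop⟩ h
  refine ⟨key1, ?_, adm_nine⟩
  intro hz0
  have key2 : ∀ (E : Set ℕ) (d : ℝ), Tendsto (fun n => L E n / Real.log n) atTop (𝓝 d) →
        ∀ᵐ ω ∂μ, ∀ a b : ℤ, 1 < a → -a < b → b < a → IsCoprime a b →
          Tendsto (fun n : ℕ => (N a b {k | ω ∈ S k} E n : ℝ) / (Real.log n / Real.log a)) atTop
            (𝓝 (θ * Real.exp Real.eulerMascheroniConstant * d)) := by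
    intro E d hE
    filter_upwards [key1 E] with ω hω a b ha h1 h2 hcop
    obtain ⟨w1, w2⟩ := hω a b ha h1 h2 hcop
    have hX := Pool.Agent.U310.Mers.DP_expo ha h1 h2 hcop
    have hfull : Tendsto (fun n => L (E ∩ {p | Rough z (D a b p)}) n / Real.log n) atTop (𝓝 d) :=
      Pool.Agent.U310.Mers.gfull hX z hz0 E d hE
    have hla : 0 < Real.log a := Real.log_pos (by exact_mod_cast ha)
    have hκ0 : 0 < θ * Real.exp Real.eulerMascheroniConstant / Real.log a := by positivity
    have hlogN := Pool.Agent.U310.Mers.logNat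
    rcases tendsto_of_monotone (Pool.Agent.U310.Mers.L_mono (E ∩ {p | Rough z (D a b p)})) with hinf | ⟨l, hl⟩
    · have h3 := (w1 hinf).mul hfull
      have h4 := h3.const_mul (θ * Real.exp Real.eulerMascheroniConstant)
      rw [one_mul] at h4
      refine h4.congr' ?_
      have hinf' : Tendsto (L (E ∩ {p | Rough z (D a b p)})) atTop atTop := hinf
      filter_upwards [hinf'.eventually_gt_atTop 0, hlogN.eventually_gt_atTop 0] with n hn hn2
      field_simp
    · have hb : ∃ C : ℝ, ∀ n, L (E ∩ {p | Rough z (D a b p)}) n ≤ C :=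
        ⟨l, fun n => (Pool.Agent.U310.Mers.L_mono (E ∩ {p | Rough z (D a b p)})).ge_of_tendsto hl n⟩
      have hfinite := w2 hb
      have hd0 : d = 0 := by
        have h4 : Tendsto (fun n => L (E ∩ {p | Rough z (D a b p)}) n / Real.log n) atTop (𝓝 0) :=
          hl.div_atTop hlogN
        exact tendsto_nhds_unique hfull h4
      rw [hd0, mul_zero]
      have h5 : ∀ n : ℕ, (N a b {k | ω ∈ S k} E n : ℝ) ≤ {p | p.Prime ∧ p ∈ E ∧ ω ∈ S (D a b p)}.ncard := by
        intro n
        have : {p | p ≤ n ∧ p.Prime ∧ p ∈ E ∧ D a b p ∈ {k : ℕ | ω ∈ S k}}.ncard ≤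
            {p | p.Prime ∧ p ∈ E ∧ ω ∈ S (D a b p)}.ncard :=
          Set.ncard_le_ncard (fun p hp => hp.2) hfinite
        exact_mod_cast this
      have hlt : Tendsto (fun n : ℕ => Real.log n / Real.log a) atTop atTop := hlogN.atTop_div_const hla
      have h6 : Tendsto (fun n : ℕ => ({p | p.Prime ∧ p ∈ E ∧ ω ∈ S (D a b p)}.ncard : ℝ) /
          (Real.log n / Real.log a)) atTop (𝓝 0) := hlt.const_div_atTop _
      refine squeeze_zero (fun n => ?_) (fun n => ?_) h6
      · exact div_nonneg (Nat.cast_nonneg _) (div_nonneg (Real.log_natCast_nonneg n) hla.le)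
      · exact div_le_div_of_nonneg_right (h5 n) (div_nonneg (Real.log_natCast_nonneg n) hla.le)
  refine ⟨key2, ?_⟩
  intro hθ1
  filter_upwards [key2 Set.univ 1 Pool.Agent.U310.Mers.L_univ] with ω hω a b m hadm
  obtain ⟨ha, h1, h2, hcop, -⟩ := hadm
  have h3 := hω a b ha h1 h2 hcop
  rw [hθ1, one_mul, mul_one] at h3
  have h4 : Tendsto (fun n : ℕ => ({p : ℕ | p ≤ n ∧ p.Prime ∧ ω ∈ S (D a b p)}.ncard : ℝ) /
      (Real.log n / Real.log a)) atTop (𝓝 (Real.exp Real.eulerMascheroniConstant)) := by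
    refine h3.congr fun n => ?_
    have : {p | p ≤ n ∧ p.Prime ∧ p ∈ Set.univ ∧ D a b p ∈ {k | ω ∈ S k}} =
        {p | p ≤ n ∧ p.Prime ∧ ω ∈ S (D a b p)} := by
      ext p
      constructor
      · rintro ⟨h1, h2, -, h3⟩
        exact ⟨h1, h2, h3⟩
      · rintro ⟨h1, h2, h3⟩
        exact ⟨h1, h2, trivial, h3⟩
    unfold N
    rw [this]
  constructor
  · intro h5
    have h6 := tendsto_nhds_unique h4 h5
    have h7 : (m : ℝ) * Real.log 2 = 0 := by linarith
    rcases mul_eq_zero.1 h7 with h8 | h8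
    · exact_mod_cast h8
    · have : 0 < Real.log 2 := Real.log_pos (by norm_num)
      linarith
  · intro h5
    rw [h5]
    simpa using h4

end Pool.Agent.Results.MP_de9007_nt.RandomSieveModels
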